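import Pool.Agent.H240.SG.Fin2

/-!
# The area of a surface is unique
-/

set_option autoImplicit false
set_option linter.unusedSectionVars false

open Set Filter Topology MeasureTheory
open scoped ContDiff ComplexConjugate Real

noncomputable section

namespace Pool.Agent.H240.NL

open Pool.Agent.Y262.EG Pool.Agent.Y262.EX Pool.Agent.Y262.EL Pool.Agent.Y262.QE
open Pool.Agent.Y264.QR Pool.Agent.H240.SC Pool.Agent.H240.SG Pool.Agent.Y361.EL.Wk
open Pool.Agent.Y46.EX

variable {M P : Type} [MetricSpace M] [CompactSpace M] [MetricSpace P] [CompactSpace P]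
  [MeasurableSpace M] [BorelSpace M] {Ω : Set ℂ} {φ : ℂ → ℝ} {pr : ℂ → M} {q : Y → P}
  {μ μ' : Measure M}

theorem area_unique (hUT : IsUT Ω φ pr q) (h1 : IsArea Ω φ pr μ) (h2 : IsArea Ω φ pr μ') :
    μ = μ' := by
  obtain ⟨ι, _, B, b, hB, hb, hpos⟩ := bumps hUT
  have hcov : ⋃ i, pr '' B i = univ := by
    rw [eq_univ_iff_forall]
    intro x
    obtain ⟨i, hi⟩ := hpos x
    refine mem_iUnion.2 ⟨i, ?_⟩
    by_contra hx
    rw [Gf_zero fun h => hx (image_mono (hb i).2.2.1 h)] at hi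
    exact lt_irrefl _ hi
  rw [Measure.ext_iff_of_iUnion_eq_univ hcov]
  intro i
  ext S hS
  rw [Measure.restrict_apply hS, Measure.restrict_apply hS]
  set W : Set ℂ := B i ∩ pr ⁻¹' S with hW
  have hWm : MeasurableSet W := meas_piece (hB i).1 (hUT.contp.mono (hB i).2.1) hS
  have hWs : W ⊆ Ω := fun z hz => (hB i).2.1 hz.1
  have hWi : InjOn pr W := (hB i).2.2.mono inter_subset_left
  have hSW : S ∩ pr '' B i = pr '' W := by
    ext x
    constructor
    · rintro ⟨hx, z, hz, rfl⟩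
      exact ⟨z, ⟨hz, hx⟩, rfl⟩
    · rintro ⟨z, hz, rfl⟩
      exact ⟨hz.2, z, hz.1, rfl⟩
  rw [hSW, h1 W hWm hWs hWi, h2 W hWm hWs hWi]

end Pool.Agent.H240.NL
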