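import Pool.Agent.H240.NX.Stab

/-!
# Localized eigenfunctions persist under small perturbations of the metric
-/

set_option autoImplicit false
set_option linter.unusedSectionVars false

open Set Filter Topology MeasureTheory
open scoped Real ContDiff

noncomputable section

namespace Pool.Agent.H240.NL

open Pool.Agent.Y262.QE Pool.Agent.Y264.QR Pool.Agent.Y986.QE Pool.Agent.H240.QX Pool.Agent.H240.NX

section

variable {M : Type} [MetricSpace M] [CompactSpace M] [MeasurableSpace M] [BorelSpace M]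

theorem stabL (μ : Measure M) (D : Data M) (hD : D.IsSurf μ) (hM : Nonempty M)
    (φ0 h : C(M, ℝ)) (hP : ∀ (u : ℕ → M → ℝ) (lam : ℕ → ℝ),
      EigBasis (D.conf fun x => Real.exp (φ0 x)) (wm μ fun x => Real.exp (φ0 x)) u lam →
      ∃ J : Set ℕ, (∀ C : ℝ, ∃ᶠ Λ : ℝ in atTop,
        C * Real.sqrt Λ < ({j | j ∈ J ∧ lam j ≤ Λ}.ncard : ℝ)) ∧
        Tendsto (fun j => ∫ x, h x * (u j x) ^ 2 ∂(wm μ fun x => Real.exp (φ0 x)))
          (atTop ⊓ 𝓟 J) (𝓝 0)) (C ε Λ0 : ℝ) (hε : 0 < ε) :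
    ∃ (Λ1 η : ℝ), 0 < η ∧ ∀ f : C(M, ℝ), ‖f‖ < η → ∀ (u : ℕ → M → ℝ) (lam : ℕ → ℝ),
      EigBasis (D.conf fun x => Real.exp ((φ0 + f) x))
        (wm μ fun x => Real.exp ((φ0 + f) x)) u lam →
      ∃ Λ : ℝ, Λ0 ≤ Λ ∧ Λ ≤ Λ1 ∧ C * Real.sqrt Λ <
        ({j | (∫ x, h x * (u j x) ^ 2 ∂(wm μ fun x => Real.exp ((φ0 + f) x))) ≤ ε ∧
          lam j ≤ Λ}.ncard : ℝ) := by
  classical
  obtain ⟨hfin, hpos⟩ := tFin M μ D hD
  obtain ⟨iF, aF, hSf, hiF, haF⟩ := tPackF M μ D hD hM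
  obtain ⟨bF, hBF, hFF, -, hcmp, -⟩ := tFm M μ (HF D μ) iF aF hSf
  have : CompleteSpace (HF D μ) :=
    (Submodule.isClosed_topologicalClosure _).completeSpace_coe
  by_contra hcon
  push Not at hcon
  have hcon' : ∀ n : ℕ, ∃ f : C(M, ℝ), ‖f‖ < 1 / ((n : ℝ) + 1) ∧
      ∃ (u : ℕ → M → ℝ) (lam : ℕ → ℝ),
      EigBasis (D.conf fun x => Real.exp ((φ0 + f) x))
        (wm μ fun x => Real.exp ((φ0 + f) x)) u lam ∧
      ∀ Λ : ℝ, Λ0 ≤ Λ → Λ ≤ n →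
        ({j | (∫ x, h x * (u j x) ^ 2 ∂(wm μ fun x => Real.exp ((φ0 + f) x))) ≤ ε ∧
          lam j ≤ Λ}.ncard : ℝ) ≤ C * Real.sqrt Λ := by
    intro n
    obtain ⟨f, h1, u, lam, h3, h4⟩ := hcon n (1 / ((n : ℝ) + 1)) (by positivity)
    exact ⟨f, h1, u, lam, h3, h4⟩
  choose f hf1 u lam hu hfail using hcon'
  set φ : ℕ → C(M, ℝ) := fun n => φ0 + f n with hφd
  have hft : Tendsto f atTop (𝓝 0) := squeeze_zero_norm (fun n => (hf1 n).le)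
    tendsto_one_div_add_atTop_nhds_zero_nat
  have hφ : Tendsto φ atTop (𝓝 φ0) := by
    have h1 : Tendsto (fun n => φ0 + f n) atTop (𝓝 (φ0 + 0)) := tendsto_const_nhds.add hft
    rwa [add_zero] at h1
  choose e heu hEg using fun n => tBr M μ D hD iF aF bF hSf hiF haF hBF hFF (φ n) (u n) (lam n)
    (hu n)
  obtain ⟨θ, e0, E0, hθ, hE0, he0, hlt⟩ := cpt hSf hBF hFF hcmp φ φ0 hφ e lam hEg
  have hφθ : Tendsto (fun n => φ (θ n)) atTop (𝓝 φ0) := hφ.comp hθ.tendsto_atTop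
  have hltθ : ∀ j, Tendsto (fun n => lam (θ n) j) atTop (𝓝 (E0 j)) := fun j =>
    (hlt j).comp hθ.tendsto_atTop
  obtain ⟨J, hJ1, hJ2⟩ := hP _ _ (basis_of_eg hD φ0 iF aF bF hiF haF hBF hFF hcmp e0 E0 hE0)
  have hkap0 : ∀ j, (∫ x, h x * (((e0 j).1.fst : M → ℝ) x) ^ 2 ∂(wm μ fun x => Real.exp (φ0 x))) =
      kap μ iF h φ0 (e0 j) := fun j =>
    (kap_eq (i := iF) h φ0 (e0 j) _ (by rw [hiF])).symm
  have hkapn : ∀ n j, (∫ x, h x * (u n j x) ^ 2 ∂(wm μ fun x => Real.exp (φ n x))) =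
      kap μ iF h (φ n) (e n j) := fun n j =>
    (kap_eq (i := iF) h (φ n) (e n j) _ (heu n j)).symm
  simp only [hkap0] at hJ2
  -- the indices with a small mass
  have h1 : ∀ᶠ j in atTop, j ∈ J → kap μ iF h φ0 (e0 j) < ε := by
    have h2 := hJ2.eventually (gt_mem_nhds hε)
    rwa [eventually_inf_principal] at h2
  obtain ⟨j1, hj1⟩ := h1.exists_forall_of_atTop
  -- the scale
  have hsq : Tendsto (fun Λ : ℝ => Real.sqrt Λ) atTop atTop := Real.tendsto_sqrt_atTop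
  obtain ⟨Λ, hΛ1, hΛ2, hΛ3⟩ := ((hJ1 (C + 1)).and_eventually
    ((eventually_ge_atTop Λ0).and (hsq.eventually_ge_atTop (j1 : ℝ)))).exists
  have hEf : ∀ Λ : ℝ, {j | E0 j ≤ Λ}.Finite := by
    intro Λ
    obtain ⟨j0, hj0⟩ := (hE0.tt.eventually (eventually_gt_atTop Λ)).exists_forall_of_atTop
    refine (Set.finite_Iio j0).subset fun j hj => ?_
    by_contra hcon
    have h1 := hj0 j (not_lt.1 hcon)
    have h2 : E0 j ≤ Λ := hj
    linarith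
  have hcount : C * Real.sqrt Λ < ({j | kap μ iF h φ0 (e0 j) < ε ∧ E0 j ≤ Λ}.ncard : ℝ) := by
    have h2 : {j | j ∈ J ∧ E0 j ≤ Λ} ⊆ {j | kap μ iF h φ0 (e0 j) < ε ∧ E0 j ≤ Λ} ∪ Iio j1 := by
      rintro j ⟨h3, h4⟩
      rcases lt_or_ge j j1 with h5 | h5
      · exact Or.inr h5
      · exact Or.inl ⟨hj1 j h5 h3, h4⟩
    have h3 := (ncard_le_ncard h2 (((hEf Λ).subset fun j hj => hj.2).union
      (finite_Iio j1))).trans (ncard_union_le _ _)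
    have h4 : (Iio j1 : Set ℕ).ncard = j1 := by
      rw [← Finset.coe_Iio, ncard_coe_finset, Nat.card_Iio]
    rw [h4] at h3
    have h5 : ({j | j ∈ J ∧ E0 j ≤ Λ}.ncard : ℝ) ≤
        ({j | kap μ iF h φ0 (e0 j) < ε ∧ E0 j ≤ Λ}.ncard : ℝ) + j1 := by exact_mod_cast h3
    linarith
  -- a slightly larger scale
  obtain ⟨Λ', hΛ', hΛ'2⟩ : ∃ Λ' : ℝ, Λ < Λ' ∧ C * Real.sqrt Λ' <
      ({j | kap μ iF h φ0 (e0 j) < ε ∧ E0 j ≤ Λ}.ncard : ℝ) := by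
    have h2 : ContinuousAt (fun t : ℝ => C * Real.sqrt t) Λ := by fun_prop
    have h3 := h2.eventually (gt_mem_nhds hcount)
    have h4 : ∀ᶠ t in 𝓝[>] Λ, C * Real.sqrt t <
      ({j | kap μ iF h φ0 (e0 j) < ε ∧ E0 j ≤ Λ}.ncard : ℝ) := nhdsWithin_le_nhds h3
    obtain ⟨t, ht1, ht2⟩ := (h4.and self_mem_nhdsWithin).exists
    exact ⟨t, ht2, ht1⟩
  -- the localized eigenfunctions persist
  have hall : ∀ᶠ n in atTop, ∀ j ∈ (hEf Λ).toFinset, kap μ iF h φ0 (e0 j) < ε →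
      kap μ iF h (φ (θ n)) (e (θ n) j) ≤ ε ∧ lam (θ n) j ≤ Λ' := by
    rw [Filter.eventually_all_finset]
    intro j hjE
    have hjE' : E0 j ≤ Λ := (hEf Λ).mem_toFinset.1 hjE
    by_cases hj : kap μ iF h φ0 (e0 j) < ε
    · filter_upwards [(kap_tendsto (i := iF) (μ := μ) h hφθ (he0 j)).eventually
        (gt_mem_nhds hj), (hltθ j).eventually (gt_mem_nhds (hjE'.trans_lt hΛ'))] with n hn hn2 _
      exact ⟨hn.le, hn2.le⟩
    · exact Eventually.of_forall fun n h => absurd h hj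
  obtain ⟨m, hm⟩ := exists_nat_ge Λ'
  obtain ⟨n, hn1, hn2⟩ := (hall.and (eventually_ge_atTop m)).exists
  have hΛn : Λ' ≤ (θ n : ℝ) := by
    have h2 : m ≤ θ n := hn2.trans (hθ.id_le n)
    have h3 : (m : ℝ) ≤ θ n := by exact_mod_cast h2
    linarith
  have hfa := hfail (θ n) Λ' (hΛ2.trans hΛ'.le) hΛn
  refine absurd hfa (not_le.2 (hΛ'2.trans_le (Nat.cast_le.2 (ncard_le_ncard ?_ ?_))))
  · rintro j ⟨h2, h3⟩
    obtain ⟨h4, h5⟩ := hn1 j ((hEf Λ).mem_toFinset.2 h3) h2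
    refine ⟨?_, h5⟩
    rw [hkapn]
    exact h4
  · obtain ⟨j0, hj0⟩ :=
      ((hEg (θ n)).tt.eventually (eventually_gt_atTop Λ')).exists_forall_of_atTop
    refine (Set.finite_Iio j0).subset fun j hj => ?_
    by_contra hcon
    have h1 := hj0 j (not_lt.1 hcon)
    have h2 : lam (θ n) j ≤ Λ' := hj.2
    linarith

end

end Pool.Agent.H240.NL
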