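import Pool.Graph.R_seed8.Y262.NU.All0
import Pool.Agent.H240.SG.Fin2
import Pool.Agent.H240.NL.Stab
import Pool.Agent.H240.NL.Area

/-!
# Negatively curved surfaces: localized eigenfunctions
-/

set_option autoImplicit false
set_option linter.unusedSectionVars false

open Set Filter Topology MeasureTheory
open scoped ContDiff ComplexConjugate Real

noncomputable section

namespace Pool.Agent.H240.NL

open Pool.Agent.Y262.EG Pool.Agent.Y262.EX Pool.Agent.Y262.EL Pool.Agent.Y262.QE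
open Pool.Agent.Y264.QR Pool.Agent.H240.SC Pool.Agent.H240.SG

theorem eb_tt {M : Type} [MetricSpace M] [CompactSpace M] [MeasurableSpace M] [BorelSpace M]
    {μ : Measure M} {D : Data M} (hD : D.IsSurf μ) (hM : Nonempty M) {φ : C(M, ℝ)}
    {u : ℕ → M → ℝ} {lam : ℕ → ℝ}
    (hu : EigBasis (D.conf fun x => Real.exp (φ x)) (wm μ fun x => Real.exp (φ x)) u lam) :
    Tendsto lam atTop atTop := by
  obtain ⟨hfin, hpos⟩ := tFin M μ D hD
  obtain ⟨iF, aF, hSf, hiF, haF⟩ := tPackF M μ D hD hM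
  obtain ⟨bF, hBF, hFF, -⟩ := tFm M μ (HF D μ) iF aF hSf
  obtain ⟨e, heu, hEg⟩ := tBr M μ D hD iF aF bF hSf hiF haF hBF hFF φ u lam hu
  exact hEg.tt

section

variable {M P : Type} [MetricSpace M] [CompactSpace M] [MetricSpace P] [CompactSpace P]
  [MeasurableSpace M] [BorelSpace M] {pr : ℂ → M} {q : Y → P} {μ : Measure M} {D : Data M}
  {g X : ℝ → ℝ} {c1 C : ℝ} {κ h : C(M, ℝ)} {Φ : ℂ → M} {σ : M → M}

theorem fam_data2 (hP : Prof g c1 C) (hX : Cut X) (hpr : PrM Om ac pr) (hq : PrP Om ac q)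
    (hB : Bs g X c1 pr κ h μ D Φ σ) (f : C(M, ℝ)) (hfs : ContDiffOn ℝ ∞ (fun z => f (pr z)) Om)
    (φ' : ℂ → ℝ) (he : ∀ z ∈ Om, φ' z = ph0 g X c1 z + 1 / 2 * f (pr z)) :
    (D.conf fun x => Real.exp (f x)).IsSurf (wm μ fun x => Real.exp (f x)) ∧
      Compat (D.conf fun x => Real.exp (f x)) Om φ' pr ∧
      IsArea Om φ' pr (wm μ fun x => Real.exp (f x)) := by
  have hA : Act Gq Om ac := tAct
  have hUT : IsUT Om (ph0 g X c1) pr q :=
    Pool.Agent.Y145.EX.qU Gq Om ac (ph0 g X c1) M P pr q hA (ph0_inva hP hX) hpr hq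
  have hw : (fun x => Real.exp (1 * f x)) = fun x => Real.exp (f x) := by
    funext x
    rw [one_mul]
  refine ⟨?_, ?_, ?_⟩
  · exact (tConf M μ D hB.surf (fun x => Real.exp (f x))
      (Real.continuous_exp.comp f.continuous) (fun x => Real.exp_pos _)).1
  · have h1 := (tUTs M P Om (ph0 g X c1) pr q hUT f hfs 1).2 D hB.cmp
    rw [hw] at h1
    exact cmp_congr h1 he
  · have h1 := (tCVM M P Om (ph0 g X c1) pr q μ hUT hB.area).2.2.2 f f.continuous hfs 1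
    rw [hw] at h1
    exact area_congr h1 he

end

/-- Localized eigenfunctions on surfaces of negative curvature. -/
def ConclL : Prop :=
  ∃ (M P : Type) (_ : MetricSpace M) (_ : CompactSpace M) (_ : ConnectedSpace M)
    (_ : MeasurableSpace M) (_ : BorelSpace M) (_ : MetricSpace P) (_ : CompactSpace P)
    (Ω : Set ℂ) (φ : ℂ → ℝ) (pr : ℂ → M) (q : Y → P) (ψ : M → ℝ) (L δ τ1 : ℝ),
    0 < L ∧ 0 < δ ∧ Stp L δ ⊆ Ω ∧
    (∀ z ∈ Stp L δ, ∀ w ∈ Stp L δ, (pr z = pr w ↔ ∃ n : ℤ, w = z + n * (2 * π * Complex.I))) ∧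
    (∀ z, 0 ≤ z.re → z.re ≤ L → φ z = 0) ∧ IsClosed (Zc pr L) ∧ Zc pr L ≠ univ ∧
    IsUT Ω φ pr q ∧ (∀ z ∈ Ω, curv φ z ≤ 0) ∧ (∀ z ∈ Ω, curv φ z = 0 → pr z ∈ Zc pr L) ∧
    ContDiffOn ℝ ∞ (fun z => ψ (pr z)) Ω ∧ 0 < τ1 ∧
    (∀ τ : ℝ, 0 < τ → τ < τ1 → ∀ z ∈ Ω, curv (fun z => φ z + τ * ψ (pr z)) z < 0) ∧
    (∀ f : M → ℝ, ContDiffOn ℝ ∞ (fun z => f (pr z)) Ω →
      IsUT Ω (fun z => φ z + f (pr z)) pr q ∧ ∃ μ : Measure M,
        IsArea Ω (fun z => φ z + f (pr z)) pr μ ∧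
        ∃ u lam, EB Ω (fun z => φ z + f (pr z)) pr μ u lam) ∧
    ∀ U : Set M, IsOpen U → Zc pr L ⊆ U → ∀ C ε Λ0 : ℝ, 0 < ε → ∃ (Λ1 η : ℝ),
      0 < η ∧ ∀ f : M → ℝ, ContDiffOn ℝ ∞ (fun z => f (pr z)) Ω → (∀ x, |f x| < η) →
      ∀ μ : Measure M, IsArea Ω (fun z => φ z + f (pr z)) pr μ →
      ∀ (u : ℕ → M → ℝ) (lam : ℕ → ℝ), EB Ω (fun z => φ z + f (pr z)) pr μ u lam →
      ∃ Λ : ℝ, Λ0 ≤ Λ ∧ Λ ≤ Λ1 ∧
        C * √Λ < ({j | 1 - ε ≤ (∫ x in U, (u j x) ^ 2 ∂μ) ∧ lam j ≤ Λ}.ncard : ℝ)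

theorem cont_of {M P : Type} [MetricSpace M] [CompactSpace M] [MetricSpace P] [CompactSpace P]
    {Ω : Set ℂ} {φ : ℂ → ℝ} {pr : ℂ → M} {q : Y → P} (hUT : IsUT Ω φ pr q) {f : M → ℝ}
    (hf : ContinuousOn (fun z => f (pr z)) Ω) : Continuous f := by
  rw [continuous_def]
  intro V hV
  have h1 : IsOpen (Ω ∩ (fun z => f (pr z)) ⁻¹' V) := hf.isOpen_inter_preimage hUT.opn hV
  have h2 := hUT.opnp _ h1 inter_subset_left
  convert h2 using 1
  ext x
  constructor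
  · intro hx
    obtain ⟨z, hz, rfl⟩ : x ∈ pr '' Ω := by rw [hUT.surjp]; trivial
    exact ⟨z, ⟨hz, hx⟩, rfl⟩
  · rintro ⟨z, ⟨hz1, hz2⟩, rfl⟩
    exact hz2

theorem finL : ConclL := by
  obtain ⟨g, c1, C, hP⟩ := tProf
  obtain ⟨X, hX⟩ := cut_ex
  have h0 := L0p
  have hA : Act Gq Om ac := tAct
  obtain ⟨hI, hconj⟩ := tPhi2 g c1 C hP
  obtain ⟨M, iM, cM, pr, hpr⟩ := Pool.Agent.Y338.EX.qM Pool.Agent.Y749.EX.top Gq Om ac hA
  obtain ⟨P, iP, cP, q, hq⟩ := Pool.Agent.Y848.EX.qP Pool.Agent.Y749.EX.top Gq Om ac hA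
    (fun γ z hz => (hI.2 γ z hz).1)
  let _ : MeasurableSpace M := borel M
  have _ : BorelSpace M := ⟨rfl⟩
  obtain ⟨κ, h, μ, D, Φ, σ, hB⟩ := base_ex hP hX hpr hq
  have hneM : Nonempty M := ⟨Φ 0⟩
  have hconn : ConnectedSpace M := { toPreconnectedSpace := ⟨hpr.conn⟩, toNonempty := hneM }
  have hUT0 : IsUT Om (phi g c1) pr q :=
    Pool.Agent.Y145.EX.qU Gq Om ac (phi g c1) M P pr q hA hI hpr hq
  obtain ⟨C', hC⟩ := tClsE g c1 C hP M P pr q hpr hUT0
  have hzero := h_zero hP hX hpr hC.strip hB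
  obtain ⟨s1, hs1, hvar⟩ := prof_var hP hX 1
  have hhs : ContDiffOn ℝ ∞ (fun z => h (pr z)) Om :=
    (hfP hP hX 1).sm.congr fun z hz => hB.hpr z hz
  have hκs : ContDiffOn ℝ ∞ (fun z => κ (pr z)) Om :=
    (contDiffOn_const.mul (hfP hP hX 0).sm).congr fun z hz => hB.κpr z hz
  -- a good parameter
  obtain ⟨s, hs, hgood⟩ : ∃ s : ℝ, |s| < 2 * s1 ∧ ∀ (u : ℕ → M → ℝ) (lam : ℕ → ℝ),
      EigBasis (D.conf fun x => Real.exp ((κ + s • h) x))
        (wm μ fun x => Real.exp ((κ + s • h) x)) u lam →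
      ∃ J : Set ℕ, (∀ C : ℝ, ∃ᶠ Λ : ℝ in atTop,
        C * Real.sqrt Λ < ({j | j ∈ J ∧ lam j ≤ Λ}.ncard : ℝ)) ∧
        Tendsto (fun j => ∫ x, h x * (u j x) ^ 2 ∂(wm μ fun x => Real.exp ((κ + s • h) x)))
          (atTop ⊓ 𝓟 J) (𝓝 0) := by
    by_contra hcon
    have hnull : volume {s : ℝ | |s| < 2 * s1} = 0 := by
      refine measure_mono_null ?_ (surf_main hB.surf hB.cyl hB.geo)
      intro s hs hgood
      exact hcon ⟨s, hs, hgood⟩
    have hpos : 0 < volume {s : ℝ | |s| < 2 * s1} := by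
      refine IsOpen.measure_pos volume ?_ ⟨0, by simpa using hs1⟩
      exact isOpen_lt continuous_abs continuous_const
    exact absurd hnull hpos.ne'
  have hs2 : |s / 2| < s1 := by
    rw [abs_div, abs_two]
    linarith
  obtain ⟨Cs, hPs⟩ := hvar (s / 2) hs2
  obtain ⟨hIs, hcs⟩ := tPhi2 _ _ Cs hPs
  have hUTs : IsUT Om (phs g X c1 s) pr q :=
    Pool.Agent.Y145.EX.qU Gq Om ac (phs g X c1 s) M P pr q hA hIs hpr hq
  obtain ⟨C2, hCs⟩ := tClsE _ _ Cs hPs M P pr q hpr hUTs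
  obtain ⟨σ', hσ'⟩ := Pool.Agent.Y658.EX.sigEx Gq M Om ac (phs g X c1 s) pr hpr tConj.1 hcs
    (fun γ => tConj.2 γ)
  obtain ⟨ψ, hψc, hψ0, -, hψs, hψneg⟩ := Pool.Agent.Y262.NU.tPsi M P Om (phs g X c1 s) pr q
    _ _ _ _ _ _ σ' hUTs hCs hσ'
  obtain ⟨N, ε1, hN, hε1, hneg⟩ := hψneg (fun _ => 0) continuous_const contDiffOn_const
  set φ0 : C(M, ℝ) := κ + s • h with hφ0
  have hfs : ∀ f : C(M, ℝ), ContDiffOn ℝ ∞ (fun z => f (pr z)) Om →
      ContDiffOn ℝ ∞ (fun z => (φ0 + (2 : ℝ) • f) (pr z)) Om := fun f hf =>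
    (hκs.add (contDiffOn_const.mul hhs)).add (contDiffOn_const.mul hf)
  have he : ∀ f : C(M, ℝ), ∀ z ∈ Om, phs g X c1 s z + f (pr z) =
      ph0 g X c1 z + 1 / 2 * (φ0 + (2 : ℝ) • f) (pr z) := by
    intro f z hz
    have h1 : (φ0 + (2 : ℝ) • f) (pr z) = κ (pr z) + s * h (pr z) + 2 * f (pr z) := rfl
    rw [h1, hB.κpr z hz, hB.hpr z hz, phs_eq]
    unfold ph0
    ring
  have hdat := fun (f : C(M, ℝ)) (hf : ContDiffOn ℝ ∞ (fun z => f (pr z)) Om) =>
    fam_data2 hP hX hpr hq hB (φ0 + (2 : ℝ) • f) (hfs f hf)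
    (fun z => phs g X c1 s z + f (pr z)) (he f)
  have hUTf : ∀ f : M → ℝ, ContDiffOn ℝ ∞ (fun z => f (pr z)) Om →
      IsUT Om (fun z => phs g X c1 s z + f (pr z)) pr q := by
    intro f hf
    have h1 := (tUTs M P Om (phs g X c1 s) pr q hUTs f hf 2).1
    have e1 : (fun z => phs g X c1 s z + 2 / 2 * f (pr z)) =
        fun z => phs g X c1 s z + f (pr z) := by
      funext z
      ring
    rwa [e1] at h1
  have hcl : IsClosed (Zc pr L0) := by
    have h1 : Zc pr L0 = h ⁻¹' {0} := by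
      ext x
      exact (hzero x).symm
    rw [h1]
    exact isClosed_singleton.preimage h.continuous
  refine ⟨M, P, iM, cM, hconn, inferInstance, inferInstance, iP, cP,
    Om, phs g X c1 s, pr, q, ψ, L0,
    3 / 2 * L0, ε1, h0, by positivity, hC.strip, ?_, ?_, hcl, ?_, hUTs, hCs.neg, ?_, hψs, hε1,
    ?_, ?_, ?_⟩
  · intro z hz w hw
    refine ⟨hC.inj z hz w hw, ?_⟩
    rintro ⟨n, hn⟩
    have hper : ∀ k : ℤ, pr (z + k * (2 * π * Complex.I)) = pr z := by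
      have hre : ∀ k : ℤ, (z + k * (2 * π * Complex.I)) ∈ Stp L0 (3 / 2 * L0) := by
        intro k
        have : (z + k * (2 * π * Complex.I)).re = z.re := by simp
        constructor
        · rw [this]; exact hz.1
        · rw [this]; exact hz.2
      intro k
      induction k using Int.induction_on with
      | zero => simp
      | succ k ih =>
        have h1 := hC.per _ (hre k)
        rw [ih] at h1
        rw [← h1]
        congr 1
        push_cast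
        ring
      | pred k ih =>
        have h1 := hC.per _ (hre (-k - 1))
        rw [← h1, ← ih]
        congr 1
        push_cast
        ring
    rw [hn, hper n]
  · intro z hz1 hz2
    have hz : z ∈ Stp L0 (3 / 2 * L0) := ⟨by linarith, by linarith⟩
    have h1 : h (pr z) = 0 := (hzero _).2 ⟨z, ⟨hz1, hz2⟩, rfl⟩
    rw [phs_eq, ← hB.hpr z (hC.strip hz), h1, (tPhi1 g c1 C hP).2.1 z hz, hP.flat _ hz1 hz2]
    ring
  · intro hcon
    have hz : ((-(L0 / 4) : ℝ) : ℂ) ∈ Stp L0 (3 / 2 * L0) := by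
      constructor
      · rw [Complex.ofReal_re]; linarith
      · rw [Complex.ofReal_re]; linarith
    have h1 : h (pr ((-(L0 / 4) : ℝ) : ℂ)) = 0 := by
      rw [hzero, hcon]
      trivial
    rw [hB.hpr _ (hC.strip hz), (hfP hP hX 1).strip _ hz, Complex.ofReal_re, et_near hX] at h1
    · have h2 : 0 < g (-(L0 / 4)) := by
        refine g_pos hP (mem_I0 ?_) fun hcon => ?_
        · rw [abs_lt]
          constructor <;> linarith
        · linarith [hcon.1]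
      linarith
    · rw [abs_le]
      constructor <;> linarith
  · intro z hz hz0
    obtain ⟨w, hw1, hw2, hw3⟩ := hCs.zero z hz hz0
    exact ⟨w, ⟨hw1, hw2⟩, hw3⟩
  · intro τ hτ hτ1 z hz
    have h1 := hneg 0 τ le_rfl hε1 hτ hτ1 z hz
    have e1 : (fun z => phs g X c1 s z + 0 * (0 + N * ψ (pr z)) + τ * ψ (pr z)) =
        fun z => phs g X c1 s z + τ * ψ (pr z) := by
      funext z
      ring
    rw [e1] at h1
    exact h1
  · intro f hf
    obtain ⟨b1, b2, b3⟩ := hdat ⟨f, cont_of hUTs hf.continuousOn⟩ hf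
    obtain ⟨u, lam, hu⟩ := tEx M μ D hB.surf hneM
      (φ0 + (2 : ℝ) • (⟨f, cont_of hUTs hf.continuousOn⟩ : C(M, ℝ)))
    obtain ⟨v, hv⟩ := eb_ex (hUTf f hf) b1 b2 b3 hu
    exact ⟨hUTf f hf, _, b3, v, lam, hv⟩
  · intro U hU hZU C ε Λ0 hε
    have hK : IsCompact Uᶜ := hU.isClosed_compl.isCompact
    -- the minimum of `h` on the complement
    obtain ⟨c, hc, hcK⟩ : ∃ c : ℝ, 0 < c ∧ ∀ x ∈ Uᶜ, c ≤ h x := by
      rcases (Uᶜ).eq_empty_or_nonempty with hem | hne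
      · exact ⟨1, one_pos, fun x hx => by rw [hem] at hx; exact absurd hx (notMem_empty x)⟩
      · obtain ⟨x0, hx0, hmin⟩ := hK.exists_isMinOn hne h.continuous.continuousOn
        refine ⟨h x0, lt_of_le_of_ne (hB.geo.hn x0) fun hcon => ?_, fun x hx => hmin hx⟩
        exact hx0 (hZU ((hzero x0).1 hcon.symm))
    obtain ⟨Λ1, η, hη, hst⟩ := Pool.Agent.H240.NL.stabL μ D hB.surf hneM φ0 h hgood C
      (c * ε) Λ0 (by positivity)
    refine ⟨Λ1, η / 2, by positivity, fun f hf hfη ν' hν' u lam hu => ?_⟩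
    set fC : C(M, ℝ) := ⟨f, cont_of hUTs hf.continuousOn⟩ with hfC
    obtain ⟨b1, b2, b3⟩ := hdat fC hf
    have hνeq : ν' = wm μ fun x => Real.exp ((φ0 + (2 : ℝ) • fC) x) :=
      area_unique (hUTf f hf) hν' b3
    subst hνeq
    have hw := eb_weak (hUTf f hf) b1 b2 b3 hu
    have hfn : ‖(2 : ℝ) • fC‖ < η := by
      rw [ContinuousMap.norm_lt_iff _ hη]
      intro x
      have h1 : ((2 : ℝ) • fC) x = 2 * f x := rfl
      rw [h1, Real.norm_eq_abs, abs_mul, abs_two]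
      linarith [hfη x]
    obtain ⟨Λ, hΛ0, hΛ1, hΛ⟩ := hst ((2 : ℝ) • fC) hfn u lam hw
    refine ⟨Λ, hΛ0, hΛ1, hΛ.trans_le (Nat.cast_le.2 (ncard_le_ncard ?_ ?_))⟩
    · rintro j ⟨h1, h2⟩
      refine ⟨?_, h2⟩
      have hfin : IsFiniteMeasure (wm μ fun x => Real.exp ((φ0 + (2 : ℝ) • fC) x)) :=
        (tFin M _ _ b1).1
      set ν := wm μ fun x => Real.exp ((φ0 + (2 : ℝ) • fC) x) with hν
      have hu2 : Integrable (fun x => (u j x) ^ 2) ν := (hw.eig j).mem.integrable_sq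
      have hI : Integrable (fun x => h x * (u j x) ^ 2) ν := by
        obtain ⟨C, hC⟩ := isCompact_univ.exists_bound_of_continuousOn h.continuous.continuousOn
        exact hu2.bdd_mul h.continuous.aestronglyMeasurable
          (Filter.Eventually.of_forall fun x => hC x (mem_univ x))
      have h3 : ∫ x in Uᶜ, c * (u j x) ^ 2 ∂ν ≤ ∫ x in Uᶜ, h x * (u j x) ^ 2 ∂ν := by
        refine setIntegral_mono_on (hu2.const_mul _).integrableOn hI.integrableOn
          hK.measurableSet fun x hx => ?_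
        exact mul_le_mul_of_nonneg_right (hcK x hx) (sq_nonneg _)
      rw [integral_const_mul] at h3
      have h4 : ∫ x in Uᶜ, h x * (u j x) ^ 2 ∂ν ≤ ∫ x, h x * (u j x) ^ 2 ∂ν :=
        setIntegral_le_integral hI
          (Filter.Eventually.of_forall fun x => mul_nonneg (hB.geo.hn x) (sq_nonneg _))
      have h5 : c * ∫ x in Uᶜ, (u j x) ^ 2 ∂ν ≤ c * ε := (h3.trans h4).trans h1
      have h6 := le_of_mul_le_mul_left h5 hc
      have h7 := integral_add_compl hU.measurableSet hu2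
      have h8 := hw.orth j j
      rw [if_pos rfl] at h8
      have h9 : ∫ x, (u j x) ^ 2 ∂ν = 1 := by
        rw [← h8]
        refine integral_congr_ae (Filter.Eventually.of_forall fun x => ?_)
        simp only
        ring
      rw [h9] at h7
      linarith
    · obtain ⟨j0, hj0⟩ := ((eb_tt hB.surf hneM hw).eventually
        (eventually_gt_atTop Λ)).exists_forall_of_atTop
      refine (Set.finite_Iio j0).subset fun j hj => ?_
      by_contra hcon
      have h1 := hj0 j (not_lt.1 hcon)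
      have h2 : lam j ≤ Λ := hj.2
      linarith

end Pool.Agent.H240.NL
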